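import Pool.Agent.X155.MackTop

/-!
# MP_19adc1_gt (Q1): no metrizable precompact group topology on `ℤ` is Mackey
-/

set_option autoImplicit false

open Filter Topology

namespace Pool.Agent.Results.MP_19adc1_gt.NoPrecompactMackey

open Pool.Agent.X155.Mack

/-- `t` is Mackey: it is locally quasi-convex and finer than (`≤` in Mathlib's order of topologies)
every locally quasi-convex group topology on `ℤ` with the same continuous characters. -/
def IsMackey (t : TopologicalSpace ℤ) : Prop :=
  IsLocallyQuasiConvex t ∧ ∀ t' : TopologicalSpace ℤ, IsGroupTop t' → IsLocallyQuasiConvex t' →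
    IsCompatible t t' → t ≤ t'

/-- (1) There is no metrizable precompact group topology on `ℤ` which is Mackey.
(2) More precisely, for every metrizable precompact (locally quasi-convex) group topology `t` on
`ℤ` there is a Hausdorff locally quasi-convex group topology `t'` on `ℤ` with the same continuous
characters which is strictly finer than `t` (`t' < t` in Mathlib's order of topologies). -/
theorem result :
    (¬ ∃ t : TopologicalSpace ℤ, IsGroupTop t ∧ @TopologicalSpace.MetrizableSpace ℤ t ∧
      IsPrecompact t ∧ IsMackey t) ∧
    (∀ t : TopologicalSpace ℤ, IsGroupTop t → @TopologicalSpace.MetrizableSpace ℤ t →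
      IsPrecompact t → IsLocallyQuasiConvex t →
      ∃ t' : TopologicalSpace ℤ, IsGroupTop t' ∧ @T2Space ℤ t' ∧ IsLocallyQuasiConvex t' ∧
        IsCompatible t t' ∧ t' < t) := by
  refine ⟨?_, fun t ht hm hp hq => exists_finer ht hm hp hq⟩
  rintro ⟨t, ht, hm, hp, hq, hM⟩
  obtain ⟨t', h1, -, h2, h3, h4⟩ := exists_finer ht hm hp hq
  exact not_le_of_gt h4 (hM t' h1 h2 h3)

end Pool.Agent.Results.MP_19adc1_gt.NoPrecompactMackey
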